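import Pool.Agent.Y819.ZF.StmP

/-!
# Project ZF, fifth part: the non-neighbours in the power of the cycle
-/

set_option autoImplicit false

namespace Pool.Agent.Y845.ZP

open Pool.Agent.Y819.ZF

theorem key {n x y : ℕ} (hx : x < n) (hy : y < 2 * n) :
    ((x : ZMod n) = (y : ZMod n)) ↔ (x = y ∨ x + n = y) := by
  rw [ZMod.natCast_eq_natCast_iff', Nat.mod_eq_of_lt hx]
  by_cases h : y < n
  · rw [Nat.mod_eq_of_lt h]
    omega
  · rw [Nat.mod_eq_sub_mod (by omega), Nat.mod_eq_of_lt (by omega)]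
    omega

theorem adj_iff (n k a b : ℕ) (hk : 2 * k < n) (hab : a ≤ b) (hb : b < n) :
    (powC n k)ᶜ.Adj (a : ZMod n) (b : ZMod n) ↔ (k < b - a ∧ b - a + k < n) := by
  rw [SimpleGraph.compl_adj, powC, SimpleGraph.fromRel_adj]
  have e1 : ((a : ZMod n) = b) ↔ a = b := by
    rw [key (by omega) (by omega)]
    omega
  have e2 : (∃ j : ℕ, 1 ≤ j ∧ j ≤ k ∧ (b : ZMod n) = a + (j : ZMod n)) ↔
      (1 ≤ b - a ∧ b - a ≤ k) := by
    constructor
    · rintro ⟨j, h1, h2, h3⟩
      rw [← Nat.cast_add, key (by omega) (by omega)] at h3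
      omega
    · intro h
      refine ⟨b - a, h.1, h.2, ?_⟩
      rw [← Nat.cast_add, key (by omega) (by omega)]
      omega
  have e3 : (∃ j : ℕ, 1 ≤ j ∧ j ≤ k ∧ (a : ZMod n) = b + (j : ZMod n)) ↔ n ≤ b - a + k := by
    constructor
    · rintro ⟨j, h1, h2, h3⟩
      rw [← Nat.cast_add, key (by omega) (by omega)] at h3
      omega
    · intro h
      refine ⟨n - (b - a), by omega, by omega, ?_⟩
      rw [← Nat.cast_add, key (by omega) (by omega)]
      omega
  rw [e2, e3, ne_eq, e1]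
  omega

theorem main : S_PWA := by
  intro n k a b hk hab hb
  have h := adj_iff n k a b hk hab hb
  unfold ind
  by_cases h1 : k < b - a ∧ b - a + k < n
  · rw [if_pos (h.2 h1), if_pos h1]
  · rw [if_neg (fun h2 => h1 (h.1 h2)), if_neg h1]

end Pool.Agent.Y845.ZP
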